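import Mathlib
import Pool.Agent.Y859.MU.Fin

set_option autoImplicit false

/-!
# Odd squarefree congruent numbers with a prescribed divisor

Every odd squarefree `B ≤ X ^ (1/2 - ε)` divides at least `X ^ (1/2 - ε) / B` squarefree congruent
numbers `n ≤ X` in each of the four odd residue classes modulo `8`, the quotient `n / B` being
almost prime.

Proof.  The pigeonhole principle gives two primes `a ≡ b` modulo `8` of size `X ^ δ` with the same
quadratic character modulo all prime factors of `B`.  Then `a s ^ 2 = b t ^ 2` modulo `B` and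
`a s ^ 2 = b t ^ 2 (1 + 8 u)` modulo `64` define a lattice of index `64 B` in the plane, on which
`F = (a s ^ 2 - b t ^ 2) / (8 B)` and `G = (a s ^ 2 + b t ^ 2) / 2` are odd integers and `a b B F G`
is a congruent number up to squares.  Since `F` does not vanish on the lattice, a nonzero lattice
point in a suitable box has `F > 0`, so both vectors of a reduced basis have size `B ^ (1/2)` up to
small powers of `X`.  A sieve for the two quadratic polynomials on a line of the lattice, uniform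
in the coefficients, gives almost prime values `F`, `G` prime to `a b B`.  Finally `B` is replaced
by `B q` with primes `q` up to `X ^ (1/2 - ε / 2) / B`.
-/

namespace Pool.Agent.Results.MP_05dcdc_nt.EveryDivisor

/-- `n` is the area of a right triangle with rational sides -/
def IsCongruent (n : ℕ) : Prop :=
  ∃ a b c : ℚ, 0 < a ∧ 0 < b ∧ 0 < c ∧ a ^ 2 + b ^ 2 = c ^ 2 ∧ (n : ℚ) = a * b / 2

/-- `m` has at most `R` prime factors (with multiplicity), all of them larger than `X ^ (1 / R)` -/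
def AlmostPrime (R X m : ℕ) : Prop :=
  m.primeFactorsList.length ≤ R ∧
    ∀ p : ℕ, p.Prime → p ∣ m → (X : ℝ) ^ (1 / (R : ℝ)) < (p : ℝ)

/-- **Every odd squarefree `B ≤ X ^ (1/2 - ε)` divides many odd squarefree congruent numbers
`n ≤ X`.**  Let `0 < ε ≤ 1/2`.  There are `R` and `X₀` such that for all `X ≥ X₀`, all odd
squarefree `B ≤ X ^ (1/2 - ε)` and every odd residue `r` modulo `8` at least `X ^ (1/2 - ε) / B`
squarefree congruent numbers `n ≤ X` satisfy `n ≡ r` modulo `8` and `n = B m`, where `m` has at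
most `R` prime factors, all of them larger than `X ^ (1 / R)`. -/
theorem result (ε : ℝ) (hε : 0 < ε) (hε1 : ε ≤ 1 / 2) :
    ∃ R X₀ : ℕ, 1 ≤ R ∧ ∀ X : ℕ, X₀ ≤ X → ∀ B : ℕ, Squarefree B → Odd B →
      (B : ℝ) ≤ (X : ℝ) ^ (1 / 2 - ε) → ∀ r : ℕ, Odd r → r < 8 →
        (X : ℝ) ^ (1 / 2 - ε) / B ≤
          ({n : ℕ | n ≤ X ∧ n % 8 = r ∧ Squarefree n ∧ IsCongruent n ∧
            ∃ m, n = B * m ∧ AlmostPrime R X m}.ncard : ℝ) := by
  obtain ⟨R, X₀, hR, h⟩ := Pool.Agent.Y859.MU.main ε hε hε1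
  refine ⟨R, X₀, hR, ?_⟩
  intro X hX B hBsq hBo hBX r hr hr8
  refine ((h X hX B hBsq hBX).1 hBo r hr hr8).trans ?_
  have hfin : {n : ℕ | n ≤ X ∧ n % 8 = r ∧ Squarefree n ∧ IsCongruent n ∧
      ∃ m, n = B * m ∧ AlmostPrime R X m}.Finite :=
    (Set.finite_Iic X).subset fun n hn => hn.1
  have := Set.ncard_le_ncard (s := {n : ℕ | n ≤ X ∧ n % 8 = r ∧ Squarefree n ∧
    Pool.Agent.Y859.SP.Cg.IsCong n ∧ ∃ m, n = B * m ∧ Pool.Agent.Y859.MU.Few R X m})
    (t := {n : ℕ | n ≤ X ∧ n % 8 = r ∧ Squarefree n ∧ IsCongruent n ∧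
      ∃ m, n = B * m ∧ AlmostPrime R X m}) (fun n hn => by
      obtain ⟨g1, g2, g3, ⟨a, b, c, ha, hb, hc, e1, e2⟩, m, g5, g6⟩ := hn
      refine ⟨g1, g2, g3, ⟨a, b, c, ha, hb, hc, e1, e2.symm⟩, m, g5, g6.1, ?_⟩
      intro p hp hd
      refine g6.2 p hp ?_ hd
      rintro rfl
      have h2 : 2 ∣ n := by
        rw [g5]
        exact hd.mul_left B
      rw [Nat.odd_iff] at hr
      omega) hfin
  exact_mod_cast this

end Pool.Agent.Results.MP_05dcdc_nt.EveryDivisor
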